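import Pool.Agent.Lib.MP_4fbe7c_an.FC.Iface
import Pool.Agent.Lib.MP_4fbe7c_an.SD.Pos
import Pool.Agent.Lib.MP_4fbe7c_an.SD.Apri1

/-!
Module PA (helper16): every species is present or absent.
-/

set_option autoImplicit false

open Set

namespace Pool.Agent.Lib.MP_4fbe7c_an.FC.H16

open Pool.Agent.Lib.MP_4fbe7c_an.SD
open Pool.Agent.Lib.MP_4fbe7c_an.FC

theorem pa : PaStatement := by
  intro L M m N d u v w h i
  have hpos : (∃ x ∈ Icc 0 L, 0 < u i 0 x) → Pres L u i := fun hx =>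
    pos_of_init h.hL h.hm h.hd h.sol i hx
  refine ⟨?_, hpos⟩
  by_cases hx : ∃ x ∈ Icc 0 L, 0 < u i 0 x
  · exact Or.inl (hpos hx)
  · right
    intro t ht x hxL
    have h0 : ∀ x ∈ Icc 0 L, u i 0 x ≤ 0 := by
      intro y hy
      by_contra hc
      exact hx ⟨y, hy, not_le.1 hc⟩
    have h1 := growth h.hL h.hm h.hd h.sol (K := M)
      (fun y hy => (le_abs_self _).trans (h.hM y hy)) i le_rfl le_rfl h0 t ht x hxL
    have h2 := nonneg h.hL h.hm h.hd h.sol i t ht x hxL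
    rw [zero_mul] at h1
    exact le_antisymm h1 h2

end Pool.Agent.Lib.MP_4fbe7c_an.FC.H16
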