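import Pool.Agent.Lib.MP_4fbe7c_an.FC.Iface2

/-!
Project FC (MP_4fbe7c_an), module YBU (helper16): `yy` is eventually bounded by a constant which
depends only on `L`, `M` and a lower bound for the rate.
-/

set_option autoImplicit false

open Set

namespace Pool.Agent.Lib.MP_4fbe7c_an.FC.H16

open Pool.Agent.Lib.MP_4fbe7c_an.SD Pool.Agent.Lib.MP_4fbe7c_an.FC

/-- A linear differential inequality `g' ≤ - k (g - c)` on `[T, ∞)` gives `g ≤ c + 1` from some
time on. -/
theorem barrier_one {g g' : ℝ → ℝ} {T k c : ℝ} (hk : 0 < k)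
    (hd : ∀ t, T ≤ t → HasDerivAt g (g' t) t) (hi : ∀ t, T ≤ t → g' t ≤ -(k * (g t - c))) :
    ∀ t, T + |g T - c| / k ≤ t → g t ≤ c + 1 := by
  intro t ht'
  have h00 : 0 ≤ |g T - c| / k := by positivity
  have ht : T ≤ t := by linarith
  have hH : ∀ s, T ≤ s → HasDerivAt (fun s => (g s - c) * Real.exp (k * (s - T)))
      (g' s * Real.exp (k * (s - T)) + (g s - c) * (Real.exp (k * (s - T)) * (k * 1))) s := by
    intro s hs
    have h1 : HasDerivAt (fun s => g s - c) (g' s) s := (hd s hs).sub_const c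
    have h2 : HasDerivAt (fun s => k * (s - T)) (k * 1) s :=
      ((hasDerivAt_id s).sub_const T).const_mul k
    exact h1.mul h2.exp
  have hanti : AntitoneOn (fun s => (g s - c) * Real.exp (k * (s - T))) (Ici T) := by
    refine antitoneOn_of_deriv_nonpos (convex_Ici T)
      (fun s hs => (hH s hs).continuousAt.continuousWithinAt) ?_ ?_
    · intro s hs
      rw [interior_Ici] at hs
      exact (hH s (le_of_lt hs)).differentiableAt.differentiableWithinAt
    · intro s hs
      rw [interior_Ici] at hs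
      have hs' : T ≤ s := le_of_lt hs
      rw [(hH s hs').deriv]
      have h3 := hi s hs'
      have h4 : 0 < Real.exp (k * (s - T)) := Real.exp_pos _
      have h5 : g' s * Real.exp (k * (s - T)) + (g s - c) * (Real.exp (k * (s - T)) * (k * 1)) =
          (g' s + k * (g s - c)) * Real.exp (k * (s - T)) := by ring
      rw [h5]
      exact mul_nonpos_of_nonpos_of_nonneg (by linarith) h4.le
  have h6 := hanti (mem_Ici.2 le_rfl) (mem_Ici.2 ht) ht
  simp only [sub_self, mul_zero, Real.exp_zero, mul_one] at h6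
  by_contra hcon
  push Not at hcon
  have h7 : |g T - c| ≤ k * (t - T) := by
    have h8 : |g T - c| / k ≤ t - T := by linarith
    have h9 := mul_le_mul_of_nonneg_left h8 hk.le
    rwa [mul_div_cancel₀ _ hk.ne'] at h9
  have h8 : k * (t - T) + 1 ≤ Real.exp (k * (t - T)) := Real.add_one_le_exp _
  have h9 : 1 * Real.exp (k * (t - T)) ≤ (g t - c) * Real.exp (k * (t - T)) :=
    mul_le_mul_of_nonneg_right (by linarith) (Real.exp_pos _).le
  have h10 := le_abs_self (g T - c)
  linarith

/-- **YBU** -/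
theorem ybu (h1 : YIneStatement) (h2 : MassStatement) : YBuStatement := by
  intro L M a ha
  refine ⟨4 * |M| * |L| / a + 6 * M ^ 2 * |L| ^ 3 / a ^ 2 + 1, by positivity, ?_⟩
  intro m N d u v w i hC had hP
  obtain ⟨hm0, T, hT, hm⟩ := h2 L M m N d u v w hC
  have hd0 : 0 < d i := hC.hd i
  have hL : 0 < L := hC.hL
  have hM : 0 < M := hC.hM0
  have hy : ∀ t, T ≤ t → ∃ y' : ℝ, HasDerivAt (yy L u v i) y' t ∧
      y' ≤ -(d i / L ^ 2 * yy L u v i t) + R2 L m u t / d i := fun t ht =>
    h1 L M m N d u v w i hC hP t (lt_of_lt_of_le hT ht)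
  have hex : ∀ t : ℝ, ∃ g' : ℝ, T ≤ t →
      HasDerivAt (fun s => yy L u v i s + 2 / d i * mass L u s) g' t ∧
        g' ≤ -(d i / L ^ 2 * ((yy L u v i t + 2 / d i * mass L u t) -
          (4 * M * L / d i + 6 * M ^ 2 * L ^ 3 / d i ^ 2))) := by
    intro t
    by_cases ht : T ≤ t
    · obtain ⟨y', hy1, hy2⟩ := hy t ht
      obtain ⟨hmt, I', hI1, -, hI2⟩ := hm t ht
      refine ⟨y' + 2 / d i * I', fun _ => ⟨hy1.add (hI1.const_mul _), ?_⟩⟩
      have h3 : R2 L m u t / d i ≤ (-(2 * I') + 6 * M ^ 2 * L) / d i :=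
        div_le_div_of_nonneg_right hI2 hd0.le
      have h4 : (-(2 * I') + 6 * M ^ 2 * L) / d i = -(2 / d i * I') + 6 * M ^ 2 * L / d i := by
        field_simp
      have h5 : d i / L ^ 2 * (2 / d i * mass L u t) ≤ d i / L ^ 2 * (2 / d i * (2 * M * L)) :=
        mul_le_mul_of_nonneg_left (mul_le_mul_of_nonneg_left hmt (by positivity))
          (by positivity)
      have h6 : d i / L ^ 2 * (2 / d i * (2 * M * L)) + 6 * M ^ 2 * L / d i =
          d i / L ^ 2 * (4 * M * L / d i + 6 * M ^ 2 * L ^ 3 / d i ^ 2) := by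
        field_simp
        ring
      nlinarith
    · exact ⟨0, fun h => absurd h ht⟩
  choose g' hg' using hex
  have hb := barrier_one (g := fun s => yy L u v i s + 2 / d i * mass L u s) (g' := g') (T := T)
    (k := d i / L ^ 2) (c := 4 * M * L / d i + 6 * M ^ 2 * L ^ 3 / d i ^ 2) (by positivity)
    (fun t ht => (hg' t ht).1) (fun t ht => (hg' t ht).2)
  set A : ℝ := |(fun s => yy L u v i s + 2 / d i * mass L u s) T -
    (4 * M * L / d i + 6 * M ^ 2 * L ^ 3 / d i ^ 2)| / (d i / L ^ 2) with hA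
  have hA0 : 0 ≤ A := by positivity
  refine ⟨T + A, by linarith, fun t ht => ?_⟩
  have h3 := hb t ht
  have h4 : 0 ≤ 2 / d i * mass L u t := mul_nonneg (by positivity) (hm0 t (by linarith))
  have h5 : yy L u v i t ≤ yy L u v i t + 2 / d i * mass L u t := by linarith
  have h6 : 4 * M * L / d i ≤ 4 * |M| * |L| / a := by
    rw [abs_of_pos hM, abs_of_pos hL]
    exact div_le_div_of_nonneg_left (by positivity) ha had
  have h7 : 6 * M ^ 2 * L ^ 3 / d i ^ 2 ≤ 6 * M ^ 2 * |L| ^ 3 / a ^ 2 := by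
    rw [abs_of_pos hL]
    exact div_le_div_of_nonneg_left (by positivity) (by positivity)
      (pow_le_pow_left₀ ha.le had 2)
  linarith

end Pool.Agent.Lib.MP_4fbe7c_an.FC.H16
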